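import Pool.Agent.K7.H86.PD.Final
import Pool.Agent.K7.H86.PD.CenL
import Pool.Agent.R29.IDF.Main

/-!
# Property (D) for finite groups with perfect derived subgroup (MP_dbca9e_al, Q1)

Let `G` be a finite group whose derived subgroup `N = G'` is perfect. Then `G` has property (D) if
and only if `N` has trivial centre and all automorphisms of `N` are inner. The only case not treated
here is that `Out(N)` is perfect, nontrivial and of odd order: it does not exist, by the theorem of Feit
and Thompson, which is not in Mathlib; it is excluded by the condition `OddPerfect`, which is always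
satisfied by this theorem.

Proof. `N` itself is integrable. (a) For an automorphism `g` of `N` the group `H = N ⋊ ⟨g⟩` has derived
subgroup `N`. If `L' = H`, then `L` acts on `N = L''`, and `g` belongs to the derived subgroup of
`Aut(N)`; moreover the image of `L` in `Out(N)` is a group with derived subgroup `⟨g⟩`. This is
impossible if the order `2 ^ e > 1` of `g` in `Out(N)` is the largest order of a `2`-element: a finite
group with cyclic derived subgroup of order `2 ^ e > 1` contains an element of order `2 ^ (e + 1)`.
(b) If all automorphisms of `N` are inner and `z` is a central element which is not the `p`-th power of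
a central element, then let `H` be generated by `N` and by elements `c`, `s` which commute with `N`,
with `[c, s] = z`, `s ^ m = z`, and `c` of large order. If `L' = H` then `L = N D`, where `D` is the
centraliser of `N`; modulo `⟨t⟩ Z(N) ^ p`, where `t` is a power of `c`, the conjugates of `s` by the
elements `x` of `D` are `s ^ l w`, where `w` is in `Z(N)` and `l ≡ 1` modulo `p`. So the action of `D`
is commutative, `D'` commutes with `s`, but `c` is in `Z(N) D'`, and `z` is a `p`-th power.
-/

set_option autoImplicit false

namespace Pool.Agent.Results.MP_dbca9e_al.OuterAutomorphisms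

/-- A group `G` is integrable if some group `K` has derived subgroup isomorphic to `G`. -/
def Integrable (G : Type) [Group G] : Prop :=
  ∃ (K : Type) (_ : Group K), Nonempty (commutator K ≃* G)

/-- Property (D): every finite group `H` with `H' ≅ G'` is integrable if and only if `G` is. -/
def PropD (G : Type) [Group G] : Prop :=
  ∀ (H : Type) [Group H] [Finite H], Nonempty (commutator H ≃* commutator G) →
    (Integrable H ↔ Integrable G)

/-- All automorphisms of `N` are inner. -/
def AllInner (N : Type) [Group N] : Prop := ∀ φ : MulAut N, ∃ g : N, φ = MulAut.conj g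

/-- The order of the outer automorphism group of `N`: the index of the subgroup of the inner
automorphisms in the automorphism group. -/
noncomputable def outOrder (N : Type) [Group N] : ℕ := (MulAut.conj : N →* MulAut N).range.index

/-- If `Aut(N)` is perfect and the order of `Out(N)` is odd, then all automorphisms of `N` are inner.
For finite `N` this is always true, by the theorem of Feit and Thompson (`Out(N)` is then perfect and
of odd order). -/
def OddPerfect (N : Type) [Group N] : Prop :=
  commutator (MulAut N) = ⊤ → Odd (outOrder N) → AllInner N

/-- The conditions under which `N` is shown to be the derived subgroup of a finite group which is not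
integrable. -/
def Bad (N : Type) [Group N] : Prop :=
  commutator (MulAut N) ≠ ⊤ ∨ Even (outOrder N) ∨ (AllInner N ∧ Subgroup.center N ≠ ⊥)

theorem exists_not_integrable {N : Type} [Group N] [Finite N] (hN : commutator N = ⊤)
    (h : Bad N) :
    ∃ (H : Type) (_ : Group H), Finite H ∧ Nonempty (commutator H ≃* N) ∧ ¬ Integrable H := by
  rw [Bad, ← or_assoc] at h
  rcases h with h | ⟨h1, h2⟩
  · have : ∃ g : MulAut N, ∀ (L : Type) [Group L],
        (commutator L ≃* Pool.Agent.K7.H86.PD.Ext g) → False := by
      rcases h with h | h
      · obtain ⟨g, hg⟩ : ∃ g : MulAut N, g ∉ commutator (MulAut N) := by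
          by_contra hcon
          push Not at hcon
          exact h (eq_top_iff.2 fun g _ => hcon g)
        exact ⟨g, fun L _ e => Pool.Agent.K7.H86.PD.not_int g hN hg L e⟩
      · exact Pool.Agent.K7.H86.PD.even_case hN h.two_dvd
    obtain ⟨g, hg⟩ := this
    have : Finite (MulAut N) := Pool.Agent.K7.H86.PD.finiteAut
    refine ⟨Pool.Agent.K7.H86.PD.Ext g, inferInstance, ?_,
      ⟨(Pool.Agent.K7.H86.PD.isoExt g hN).symm⟩, ?_⟩
    · exact Finite.of_equiv (N × Subgroup.zpowers g) SemidirectProduct.equivProd.symm
    · rintro ⟨L, _, ⟨e⟩⟩
      exact hg L e
  · obtain ⟨H, _, h3, h4, h5⟩ := Pool.Agent.K7.H86.PD.center_case hN h1 h2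
    refine ⟨H, inferInstance, h3, h4, ?_⟩
    rintro ⟨L, _, ⟨e⟩⟩
    exact h5 L e

/-- **Finite groups with perfect derived subgroup.** -/
theorem result :
    (∀ (G : Type) [Group G] [Finite G], commutator (commutator G) = ⊤ →
      Bad (commutator G) → ¬ PropD G) ∧
    (∀ (G : Type) [Group G] [Finite G], commutator (commutator G) = ⊤ →
      OddPerfect (commutator G) →
      (PropD G ↔ Subgroup.center (commutator G) = ⊥ ∧ AllInner (commutator G))) := by
  have first : ∀ (G : Type) [Group G] [Finite G], commutator (commutator G) = ⊤ →
      Bad (commutator G) → ¬ PropD G := by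
    intro G _ _ hG h hD
    obtain ⟨H, _, _, ⟨e⟩, hH⟩ := exists_not_integrable hG h
    have h1 : Integrable (commutator G) :=
      ⟨commutator G, inferInstance, ⟨(MulEquiv.subgroupCongr hG).trans Subgroup.topEquiv⟩⟩
    have h2 : Integrable G :=
      (hD (commutator G) ⟨(MulEquiv.subgroupCongr hG).trans Subgroup.topEquiv⟩).1 h1
    exact hH ((hD H ⟨e⟩).2 h2)
  refine ⟨first, fun G _ _ hG hodd => ⟨fun hD => ?_, fun h => ?_⟩⟩
  · have hin : AllInner (commutator G) := by
      apply hodd
      · by_contra hcon
        exact first G hG (Or.inl hcon) hD
      · rw [← Nat.not_even_iff_odd]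
        intro hcon
        exact first G hG (Or.inr (Or.inl hcon)) hD
    refine ⟨?_, hin⟩
    by_contra hcon
    exact first G hG (Or.inr (Or.inr ⟨hin, hcon⟩)) hD
  · exact (R29ID.main.2.2.1 G hG h.1 h.2).1

end Pool.Agent.Results.MP_dbca9e_al.OuterAutomorphisms
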